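import Mathlib
import Pool.Agent.H12.AddPoset

set_option autoImplicit false

namespace Pool.Agent.Results.MP_efcf90_co.NoRank

open Finset Pool.Agent.H12.AddPoset

/-- The alternating sum over the nonempty subsets `J` of `K`. -/
def alt {A : Type} [AddCommGroup A] [DecidableEq A] (r : A → ℕ) (K : Finset A) : ℤ :=
  ∑ J ∈ K.powerset.erase ∅, (-1) ^ (#J + 1) * (r (∑ a ∈ J, a) : ℤ)

/-- A rank of the additive poset `(A, le)`. -/
def IsRank {A : Type} [AddCommGroup A] [DecidableEq A] (le : A → A → Prop) (r : A → ℕ) : Prop :=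
  (∀ a, r a = 0 ↔ a = 0) ∧ (∀ a b, le a (a + b) → r (a + b) = r a + r b) ∧
    ∀ K : Finset A, K.Nonempty → 0 ≤ alt r K ∧ (2 : ℤ) ^ (#K - 1) ∣ alt r K

def K : Fin 15 → Finset V :=
  ![{(1, 0, 0, 0), (1, 1, 0, 0), (1, 0, 1, 0), (1, 0, 0, 1)},
    {(0, 1, 0, 0), (1, 1, 0, 0), (0, 1, 1, 0), (0, 1, 0, 1)},
    {(1, 0, 0, 0), (0, 1, 0, 0), (1, 0, 1, 0), (1, 0, 0, 1)},
    {(0, 0, 1, 0), (1, 0, 1, 0), (0, 1, 1, 0), (0, 0, 1, 1)},
    {(1, 0, 0, 0), (1, 1, 0, 0), (0, 0, 1, 0), (1, 0, 0, 1)},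
    {(0, 1, 0, 0), (1, 1, 0, 0), (0, 0, 1, 0), (0, 1, 0, 1)},
    {(1, 0, 0, 0), (0, 1, 0, 0), (0, 0, 1, 0), (1, 0, 0, 1)},
    {(0, 0, 0, 1), (1, 0, 0, 1), (0, 1, 0, 1), (0, 0, 1, 1)},
    {(1, 0, 0, 0), (1, 1, 0, 0), (1, 0, 1, 0), (0, 0, 0, 1)},
    {(0, 1, 0, 0), (1, 1, 0, 0), (0, 1, 1, 0), (0, 0, 0, 1)},
    {(1, 0, 0, 0), (0, 1, 0, 0), (1, 0, 1, 0), (0, 0, 0, 1)},
    {(0, 0, 1, 0), (1, 0, 1, 0), (0, 1, 1, 0), (0, 0, 0, 1)},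
    {(1, 0, 0, 0), (1, 1, 0, 0), (0, 0, 1, 0), (0, 0, 0, 1)},
    {(0, 1, 0, 0), (1, 1, 0, 0), (0, 0, 1, 0), (0, 0, 0, 1)},
    {(1, 0, 0, 0), (0, 1, 0, 0), (0, 0, 1, 0), (0, 0, 0, 1)}]

def co (i : Fin 15) (a : V) : ℤ :=
  ∑ J ∈ (K i).powerset.erase ∅ with ∑ x ∈ J, x = a, (-1) ^ (#J + 1)

theorem alt_eq (r : V → ℕ) (i : Fin 15) : alt r (K i) = ∑ a, co i a * r a := by
  unfold alt co
  rw [← sum_fiberwise _ fun J => ∑ x ∈ J, x]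
  refine sum_congr rfl fun a _ => ?_
  rw [sum_mul]
  refine sum_congr rfl fun J hJ => ?_
  rw [(mem_filter.1 hJ).2]

/-- Weights of a nonnegative combination of the alternating sums. -/
def wt : Fin 15 → ℤ := ![0, 2, 0, 2, 0, 4, 0, 2, 0, 0, 0, 0, 0, 2, 0]

def pr : Fin 5 → V × V :=
  ![((1, 1, 0, 0), (1, 1, 0, 1)),
    ((0, 1, 0, 0), (1, 0, 1, 0)),
    ((0, 0, 1, 0), (1, 0, 1, 1)),
    ((0, 1, 0, 1), (0, 0, 1, 1)),
    ((0, 1, 1, 1), (1, 1, 1, 1))]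

def tg (a : V) : ℤ := ∑ k, 4 * ((if a = (pr k).1 then 1 else 0) + (if a = (pr k).2 then 1 else 0) -
  if a = (pr k).1 + (pr k).2 then 1 else 0) - if a = (1, 0, 0, 0) then 8 else 0

theorem cert : ∀ a, ∑ i, wt i * co i a = tg a := by decide +kernel

theorem result : ¬ ∀ (A : Type) [AddCommGroup A] [Fintype A] [DecidableEq A] (le : A → A → Prop),
    IsAddPoset le → ∃ r, IsRank le r := by
  intro h
  obtain ⟨r, h1, h2, h3⟩ := h V le le_addPoset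
  have p1 : 0 ≤ ∑ i, wt i * alt r (K i) := sum_nonneg fun i _ =>
    mul_nonneg (by revert i; decide) (h3 _ (by revert i; decide +kernel)).1
  have p2 : ∑ i, wt i * alt r (K i) = ∑ a, tg a * r a := by
    simp only [alt_eq, mul_sum, ← cert, sum_mul, mul_assoc]
    exact sum_comm
  have p3 : ∑ a, tg a * r a = ∑ k, 4 * ((r (pr k).1 : ℤ) + r (pr k).2 - r ((pr k).1 + (pr k).2)) -
      8 * r (1, 0, 0, 0) := by
    simp only [tg, sub_mul, sum_sub_distrib, sum_mul]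
    rw [sum_comm]
    simp [mul_sub, mul_add, add_mul, sub_mul, sum_sub_distrib, sum_add_distrib]
  have p4 : ∀ k, r ((pr k).1 + (pr k).2) = r (pr k).1 + r (pr k).2 := fun k =>
    h2 _ _ (by revert k; decide +kernel)
  have p5 : r (1, 0, 0, 0) ≠ 0 := fun e => absurd ((h1 _).1 e) (by decide)
  simp only [p4] at p3
  simp at p3
  omega

end Pool.Agent.Results.MP_efcf90_co.NoRank
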